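import Mathlib

/-!
# Setwise convergence of the shifted process does not imply convergence in total variation

Let `ω` be a two-sided sequence of fair bits and let `T` be the shift. The process
`X'_k = T^k ω` takes its values in `E = ℤ → Bool` and is stationary. Let `X_k = T^k ω` where `ω` is
conditioned on `ω 0 = true`. Since `T` is mixing, the law of `θ_n X` converges to the law of `X'` on
every measurable set. Since `T` is invertible, `θ_n X` still shows that `ω 0 = true`, so that the
distance in total variation is at least `1 / 2` for every `n`.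
-/

open MeasureTheory ProbabilityTheory Filter Topology
open scoped ENNReal

namespace Pool.Agent.Results.MP_a1f67d_pr.SetwiseNotTV

/-- The law of the shifted process `θ_n X = (X_n, X_{n+1}, …)`, a measure on the space `ℕ → E` of
one-sided sequences with the product `σ`-algebra. -/
noncomputable def shiftedLaw {Ω E : Type} [MeasurableSpace Ω] [MeasurableSpace E] (P : Measure Ω)
    (X : ℕ → Ω → E) (n : ℕ) : Measure (ℕ → E) :=
  P.map (fun ω k => X (n + k) ω)

/-- (S): `P (θ_n X ∈ A) → P' (X' ∈ A)` for every measurable set `A` of sequences. -/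
def SetwiseConvergence {Ω Ω' E : Type} [MeasurableSpace Ω] [MeasurableSpace Ω']
    [MeasurableSpace E] (P : Measure Ω) (X : ℕ → Ω → E) (P' : Measure Ω') (X' : ℕ → Ω' → E) :
    Prop :=
  ∀ A : Set (ℕ → E), MeasurableSet A →
    Tendsto (fun n => (shiftedLaw P X n).real A) atTop (𝓝 ((shiftedLaw P' X' 0).real A))

/-- The total variation distance `sup_A |P (θ_n X ∈ A) - P' (X' ∈ A)|`, the supremum over all
measurable sets of sequences. -/
noncomputable def tvDist {Ω Ω' E : Type} [MeasurableSpace Ω] [MeasurableSpace Ω']
    [MeasurableSpace E] (P : Measure Ω) (X : ℕ → Ω → E) (P' : Measure Ω') (X' : ℕ → Ω' → E)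
    (n : ℕ) : ℝ :=
  ⨆ A : {A : Set (ℕ → E) // MeasurableSet A},
    |(shiftedLaw P X n).real A.1 - (shiftedLaw P' X' 0).real A.1|

/-- The two-sided sequences of bits. -/
abbrev Z2 : Type := ℤ → Bool

/-- The fair bit. -/
noncomputable def bit : Measure Bool := (PMF.uniformOfFintype Bool).toMeasure

instance : IsProbabilityMeasure bit := by unfold bit; infer_instance

lemma bit_true : bit {true} = 1 / 2 := by
  unfold bit
  rw [PMF.toMeasure_apply_singleton _ _ (MeasurableSet.of_discrete)]
  simp

/-- The law of the two-sided sequence of independent fair bits. -/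
noncomputable def mu : Measure Z2 := Measure.infinitePi (fun _ : ℤ => bit)

instance : IsProbabilityMeasure mu := by unfold mu; infer_instance

/-- The shift by `n`. -/
def sh (n : ℕ) (ω : Z2) : Z2 := fun i => ω (i + n)

lemma measurable_sh (n : ℕ) : Measurable (sh n) := by
  unfold sh
  fun_prop

/-- The event on which we condition. -/
def B : Set Z2 := {ω | ω 0 = true}

lemma measurableSet_B : MeasurableSet B := by
  have h : Measurable (fun ω : Z2 => ω 0) := measurable_pi_apply (0 : ℤ)
  exact h (MeasurableSet.of_discrete (s := {true}))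

/-- The square cylinder `{ω | ∀ i ∈ s, ω i ∈ t i}` seen through the shift. -/
lemma sh_preimage (n : ℕ) (s : Finset ℤ) (t : ℤ → Set Bool) :
    sh n ⁻¹' (Set.pi (s : Set ℤ) t) =
      Set.pi ((s.map (addRightEmbedding (n : ℤ)) : Finset ℤ) : Set ℤ)
        (fun i => t (i - n)) := by
  ext ω
  simp only [sh, Set.mem_preimage, Set.mem_pi, Finset.mem_coe, Finset.mem_map,
    addRightEmbedding_apply]
  constructor
  · rintro h i ⟨j, hj, rfl⟩
    simpa using h j hj
  · intro h i hi
    simpa using h (i + n) ⟨i, hi, rfl⟩

lemma mu_sh_cyl (n : ℕ) (s : Finset ℤ) (t : ℤ → Set Bool) :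
    mu (sh n ⁻¹' (Set.pi (s : Set ℤ) t)) = ∏ i ∈ s, bit (t i) := by
  rw [sh_preimage]
  unfold mu
  rw [Measure.infinitePi_pi _ (fun i _ => MeasurableSet.of_discrete)]
  simp

lemma mu_cyl (s : Finset ℤ) (t : ℤ → Set Bool) :
    mu (Set.pi (s : Set ℤ) t) = ∏ i ∈ s, bit (t i) := by
  unfold mu
  rw [Measure.infinitePi_pi _ (fun i _ => MeasurableSet.of_discrete)]

/-- The shift preserves the law of the fair bits. -/
lemma map_sh (n : ℕ) : mu.map (sh n) = mu := by
  symm
  unfold mu
  symm
  apply Measure.eq_infinitePi
  intro s t ht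
  rw [Measure.map_apply (measurable_sh n) (MeasurableSet.pi s.countable_toSet (fun i _ => ht i))]
  exact mu_sh_cyl n s t

lemma mu_sh (n : ℕ) {C : Set Z2} (hC : MeasurableSet C) : mu (sh n ⁻¹' C) = mu C := by
  rw [← Measure.map_apply (measurable_sh n) hC, map_sh]

/-- For a square cylinder `C` the events `T^{-n} C` and `B` are independent for large `n`. -/
lemma mix_cyl (s : Finset ℤ) (t : ℤ → Set Bool) :
    ∀ᶠ n : ℕ in atTop, mu (sh n ⁻¹' (Set.pi (s : Set ℤ) t) ∩ B) =
      mu (Set.pi (s : Set ℤ) t) * (1 / 2) := by
  obtain ⟨N, hN⟩ : ∃ N : ℕ, ∀ i ∈ s, -(N : ℤ) < i := by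
    refine ⟨s.sup (fun i => i.natAbs) + 1, fun i hi => ?_⟩
    have h1 : i.natAbs ≤ s.sup (fun i => i.natAbs) := Finset.le_sup (f := fun i : ℤ => i.natAbs) hi
    omega
  filter_upwards [eventually_ge_atTop N] with n hn
  have h0 : (0 : ℤ) ∉ s.map (addRightEmbedding (n : ℤ)) := by
    simp only [Finset.mem_map, addRightEmbedding_apply, not_exists, not_and]
    intro i hi h
    have := hN i hi
    omega
  have hset : sh n ⁻¹' (Set.pi (s : Set ℤ) t) ∩ B =
      Set.pi ((insert 0 (s.map (addRightEmbedding (n : ℤ))) : Finset ℤ) :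
        Set ℤ) (fun i => if i = 0 then {true} else t (i - n)) := by
    rw [sh_preimage]
    ext ω
    simp only [Set.mem_inter_iff, Set.mem_pi, Finset.mem_coe, Finset.mem_insert, B,
      Set.mem_ofPred_eq]
    constructor
    · rintro ⟨h1, h2⟩ i hi
      by_cases hi0 : i = 0
      · subst hi0
        simpa using h2
      · rw [if_neg hi0]
        exact h1 i (hi.resolve_left hi0)
    · intro h
      refine ⟨fun i hi => ?_, ?_⟩
      · have hi0 : i ≠ 0 := fun h' => h0 (h' ▸ hi)
        have := h i (Or.inr hi)
        rwa [if_neg hi0] at this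
      · simpa using h 0 (Or.inl rfl)
  rw [hset]
  unfold mu
  rw [Measure.infinitePi_pi _ (fun i _ => MeasurableSet.of_discrete),
    Measure.infinitePi_pi _ (fun i _ => MeasurableSet.of_discrete), Finset.prod_insert h0]
  simp only [if_true]
  rw [bit_true, mul_comm]
  congr 1
  rw [Finset.prod_map]
  refine Finset.prod_congr rfl fun i hi => ?_
  have hi0 : (i + (n : ℤ)) ≠ 0 := by
    have := hN i hi
    omega
  simp [hi0]

/-- The shift is mixing with respect to `B`. -/
lemma mixing {C : Set Z2} (hC : MeasurableSet C) :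
    Tendsto (fun n : ℕ => mu (sh n ⁻¹' C ∩ B)) atTop (𝓝 (mu C * (1 / 2))) := by
  induction C, hC using MeasurableSpace.induction_on_inter
    (generateFrom_squareCylinders (α := fun _ : ℤ => Bool)).symm
    (isPiSystem_squareCylinders (fun _ => MeasurableSpace.isPiSystem_measurableSet) (by simp)) with
  | empty => simp
  | basic C hC =>
    obtain ⟨s, t, ht, rfl⟩ := hC
    exact tendsto_const_nhds.congr' ((mix_cyl s t).mono fun n hn => hn.symm)
  | compl C hC ih =>
    have h1 : ∀ n : ℕ, mu (sh n ⁻¹' Cᶜ ∩ B) = 1 / 2 - mu (sh n ⁻¹' C ∩ B) := by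
      intro n
      have hB : mu B = 1 / 2 := by
        have := mu_cyl {0} (fun _ => {true})
        rw [Finset.prod_singleton, bit_true] at this
        rw [← this]
        congr 1
        ext ω
        simp [B]
      have h2 : mu (sh n ⁻¹' C ∩ B) + mu (sh n ⁻¹' Cᶜ ∩ B) = mu B := by
        rw [← measure_inter_add_sdiff B (measurable_sh n hC)]
        congr 1
        · rw [Set.inter_comm]
        · congr 1
          ext ω
          simp [and_comm]
      rw [hB] at h2
      rw [← h2]
      exact (ENNReal.add_sub_cancel_left (measure_ne_top _ _)).symm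
    have h2 : mu Cᶜ * (1 / 2) = 1 / 2 - mu C * (1 / 2) := by
      rw [prob_compl_eq_one_sub hC, ENNReal.sub_mul (by simp), one_mul]
    rw [h2]
    simp_rw [h1]
    exact ENNReal.Tendsto.sub tendsto_const_nhds ih (Or.inl (by simp))
  | iUnion f hd hf ih =>
    have h1 : ∀ n : ℕ, mu (sh n ⁻¹' (⋃ i, f i) ∩ B) = ∑' i, mu (sh n ⁻¹' (f i) ∩ B) := by
      intro n
      rw [Set.preimage_iUnion, Set.iUnion_inter, measure_iUnion]
      · intro i j hij
        exact ((hd hij).preimage (sh n)).mono Set.inter_subset_left Set.inter_subset_left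
      · intro i
        exact (measurable_sh n (hf i)).inter measurableSet_B
    have h2 : mu (⋃ i, f i) * (1 / 2) = ∑' i, mu (f i) * (1 / 2) := by
      rw [measure_iUnion hd hf, ENNReal.tsum_mul_right]
    rw [h2]
    simp_rw [h1]
    simp_rw [← lintegral_count]
    refine tendsto_lintegral_of_dominated_convergence (fun i => mu (f i))
      (fun n => measurable_of_countable _) (fun n => ?_) ?_ (ae_of_all _ fun i => ih i)
    · refine ae_of_all _ fun i => ?_
      exact (measure_mono Set.inter_subset_left).trans (mu_sh n (hf i)).le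
    · rw [lintegral_count, ← measure_iUnion hd hf]
      exact measure_ne_top _ _

lemma mu_B : mu B = 1 / 2 := by
  have := mu_cyl {0} (fun _ => {true})
  rw [Finset.prod_singleton, bit_true] at this
  rw [← this]
  congr 1
  ext ω
  simp [B]

/-- The process `T^k ω`. -/
def X (k : ℕ) (ω : Z2) : Z2 := sh k ω

lemma measurable_path (n : ℕ) : Measurable (fun (ω : Z2) (k : ℕ) => X (n + k) ω) :=
  measurable_pi_lambda _ fun k => measurable_sh (n + k)

lemma path_eq (n : ℕ) : (fun (ω : Z2) (k : ℕ) => X (n + k) ω) =
    (fun (ω : Z2) (k : ℕ) => X (0 + k) ω) ∘ sh n := by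
  funext ω k i
  simp only [X, sh, Function.comp]
  congr 1
  push_cast
  ring

/-- The bits, conditioned on `ω 0 = true`. -/
noncomputable def muB : Measure Z2 := mu[|B]

instance : IsProbabilityMeasure muB := by
  unfold muB
  exact cond_isProbabilityMeasure (by rw [mu_B]; simp)

lemma muB_apply (C : Set Z2) : muB C = 2 * mu (C ∩ B) := by
  unfold muB
  rw [cond_apply measurableSet_B, mu_B, Set.inter_comm]
  simp

/-- **Theorem.** There are processes `X` and `X'` (the same maps on the same space under two
probability measures `P` and `P'`, and with values in a standard Borel space), such that `X'` is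
stationary, the law of `X` has a density at most `2` with respect to the law of `X'`, the law of
`θ_n X` converges to the law of `X'` on every measurable set, and nevertheless the total variation
distance between `θ_n X` and `X'` is at least `1 / 2` for every `n`. -/
theorem result : ∃ (E Ω : Type) (_ : MeasurableSpace E) (_ : StandardBorelSpace E)
    (_ : MeasurableSpace Ω) (P P' : Measure Ω) (X X' : ℕ → Ω → E),
    IsProbabilityMeasure P ∧ IsProbabilityMeasure P' ∧
    (∀ k, Measurable (X k)) ∧ (∀ k, Measurable (X' k)) ∧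
    (∀ n, shiftedLaw P' X' n = shiftedLaw P' X' 0) ∧
    shiftedLaw P X 0 ≤ (2 : ℝ≥0∞) • shiftedLaw P' X' 0 ∧
    SetwiseConvergence P X P' X' ∧
    (∀ n, 1 / 2 ≤ tvDist P X P' X' n) ∧
    ¬ Tendsto (fun n => tvDist P X P' X' n) atTop (𝓝 0) := by
  have htv : ∀ n, 1 / 2 ≤ tvDist muB X mu X n := by
    intro n
    set A : Set (ℕ → Z2) := {x | x 0 (-(n : ℤ)) = true} with hA
    have hAm : MeasurableSet A := by
      have h : Measurable (fun x : ℕ → Z2 => x 0 (-(n : ℤ))) :=
        (measurable_pi_apply (-(n : ℤ))).comp (measurable_pi_apply 0)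
      exact h (MeasurableSet.of_discrete (s := {true}))
    have h1 : (shiftedLaw muB X n).real A = 1 := by
      unfold shiftedLaw
      rw [map_measureReal_apply (measurable_path n) hAm]
      have h2 : (fun (ω : Z2) (k : ℕ) => X (n + k) ω) ⁻¹' A = B := by
        ext ω
        simp [hA, X, sh, B]
      rw [h2, measureReal_def, muB_apply, Set.inter_self, mu_B]
      simp
    have h2 : (shiftedLaw mu X 0).real A = 1 / 2 := by
      unfold shiftedLaw
      rw [map_measureReal_apply (measurable_path 0) hAm]
      have h2 : (fun (ω : Z2) (k : ℕ) => X (0 + k) ω) ⁻¹' A =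
          Set.pi (({-(n : ℤ)} : Finset ℤ) : Set ℤ) (fun _ => {true}) := by
        ext ω
        simp [hA, X, sh]
      rw [h2, measureReal_def, mu_cyl, Finset.prod_singleton, bit_true]
      simp
    have hbdd : BddAbove (Set.range (fun A : {A : Set (ℕ → Z2) // MeasurableSet A} =>
        |(shiftedLaw muB X n).real A.1 - (shiftedLaw mu X 0).real A.1|)) := by
      refine ⟨1, ?_⟩
      rintro _ ⟨A, rfl⟩
      have : IsProbabilityMeasure (shiftedLaw muB X n) :=
        Measure.isProbabilityMeasure_map (measurable_path n).aemeasurable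
      have : IsProbabilityMeasure (shiftedLaw mu X 0) :=
        Measure.isProbabilityMeasure_map (measurable_path 0).aemeasurable
      have a1 := measureReal_le_one (μ := shiftedLaw muB X n) (s := A.1)
      have a2 := measureReal_le_one (μ := shiftedLaw mu X 0) (s := A.1)
      have a3 := measureReal_nonneg (μ := shiftedLaw muB X n) (s := A.1)
      have a4 := measureReal_nonneg (μ := shiftedLaw mu X 0) (s := A.1)
      rw [abs_le]
      constructor <;> linarith
    have h3 := le_ciSup hbdd ⟨A, hAm⟩
    unfold tvDist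
    refine le_trans ?_ h3
    simp only [h1, h2]
    norm_num
  refine ⟨Z2, Z2, inferInstance, inferInstance, inferInstance, muB, mu, X, X, inferInstance,
    inferInstance, fun k => measurable_sh k, fun k => measurable_sh k, ?_, ?_, ?_, htv, ?_⟩
  · intro n
    unfold shiftedLaw
    rw [path_eq n, ← Measure.map_map (measurable_path 0) (measurable_sh n), map_sh]
  · unfold shiftedLaw
    refine Measure.le_iff.2 fun A hA => ?_
    rw [Measure.map_apply (measurable_path 0) hA, Measure.smul_apply, smul_eq_mul,
      Measure.map_apply (measurable_path 0) hA, muB_apply]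
    gcongr
    exact Set.inter_subset_left
  · intro A hA
    have h0 := measurable_path 0 hA
    unfold shiftedLaw
    simp_rw [map_measureReal_apply (measurable_path _) hA, measureReal_def]
    obtain ⟨C, hC⟩ : ∃ C, C = (fun (ω : Z2) (k : ℕ) => X (0 + k) ω) ⁻¹' A := ⟨_, rfl⟩
    have h1 : ∀ n, muB ((fun (ω : Z2) (k : ℕ) => X (n + k) ω) ⁻¹' A) =
        2 * mu (sh n ⁻¹' C ∩ B) := by
      intro n
      rw [path_eq n, Set.preimage_comp, ← hC, muB_apply]
    rw [← hC] at h0 ⊢
    simp_rw [h1]
    refine (ENNReal.tendsto_toReal (measure_ne_top _ _)).comp ?_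
    have h2 := ENNReal.Tendsto.const_mul (mixing h0) (a := 2) (Or.inr (by simp))
    have h3 : 2 * (mu C * (1 / 2)) = mu C := by
      rw [mul_comm, mul_assoc, one_div, ENNReal.inv_mul_cancel (by simp) (by simp), mul_one]
    rwa [h3] at h2
  · intro h
    have := ge_of_tendsto' h htv
    norm_num at this

end Pool.Agent.Results.MP_a1f67d_pr.SetwiseNotTV
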